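import Mathlib

namespace Pool.Agent.Results.MP_b67aea_co.Four

open Multiset

/-- The multiset of parts of `pre_k`: all products of `k` of the parts (with multiplicity). -/
def pre (k : ℕ) (s : Multiset ℕ) : Multiset ℕ := (s.powersetCard k).map Multiset.prod

lemma keyF {ι : Type} [Fintype ι] [DecidableEq ι] (x y : ι → ℕ) (c k : ℕ) (hc : 0 < c)
    (h : ∀ i, x i * y i = c) (hk : Fintype.card ι = k + k) (hp : ∏ i, x i = ∏ i, y i) :
    pre k (Finset.univ.val.map x) = pre k (Finset.univ.val.map y) := by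
  have hP : ∏ i, x i = c ^ k := by
    have : (∏ i, x i) * ∏ i, x i = c ^ k * c ^ k := by
      nth_rewrite 2 [hp]
      rw [← Finset.prod_mul_distrib, Finset.prod_congr rfl (fun i _ => h i), Finset.prod_const,
        Finset.card_univ, hk, pow_add]
    exact Nat.mul_self_inj.1 this
  simp only [pre, powersetCard_map, ← Finset.map_val_val_powersetCard, map_map,
    Function.comp_def, Finset.prod_map_val]
  apply map_eq_map_of_bij_of_nodup _ _ (Finset.nodup _) (Finset.nodup _) (fun S _ => Sᶜ)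
  · intro S hS
    have := (Finset.mem_powersetCard.1 hS).2
    refine Finset.mem_powersetCard.2 ⟨Finset.subset_univ _, ?_⟩
    rw [Finset.card_compl, hk, this]; omega
  · intro S _ T _ e
    exact compl_injective e
  · intro S hS
    have := (Finset.mem_powersetCard.1 hS).2
    refine ⟨Sᶜ, Finset.mem_powersetCard.2 ⟨Finset.subset_univ _, ?_⟩, compl_compl S⟩
    rw [Finset.card_compl, hk, this]; omega
  · intro S hS
    have h1 := (Finset.mem_powersetCard.1 hS).2
    have h2 : (∏ i ∈ Sᶜ, y i) * ∏ i ∈ Sᶜ, x i = c ^ k := by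
      rw [mul_comm, ← Finset.prod_mul_distrib, Finset.prod_congr rfl (fun i _ => h i),
        Finset.prod_const, Finset.card_compl, hk, h1, Nat.add_sub_cancel]
    have h3 := Finset.prod_mul_prod_compl S x
    rw [hP, ← h2] at h3
    refine Nat.eq_of_mul_eq_mul_right (Nat.pos_of_ne_zero fun e => ?_) h3
    rw [e, mul_zero] at h2
    exact (pow_pos hc k).ne h2

lemma key (s : Multiset (ℕ × ℕ)) (c k : ℕ) (hc : 0 < c) (h : ∀ p ∈ s, p.1 * p.2 = c)
    (hk : card s = k + k) (hp : (s.map Prod.fst).prod = (s.map Prod.snd).prod) :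
    pre k (s.map Prod.fst) = pre k (s.map Prod.snd) := by
  rw [← map_univ s Prod.fst, ← map_univ s Prod.snd] at hp ⊢
  let _ : DecidableEq s.ToType := Classical.decEq _
  exact keyF _ _ c k hc (fun i => h _ coe_mem) (by rw [Multiset.card_coe, hk]) hp

def D (k K : ℕ) (A B : Multiset (ℕ × ℕ)) : Prop :=
  0 < K ∧ (∀ p ∈ A, p.1 * p.2 = K) ∧ (∀ p ∈ B, p.1 * p.2 = K) ∧ card A = k ∧ card B = k ∧
    (A.map Prod.fst).sum = (B.map Prod.fst).sum ∧ (A.map Prod.snd).sum = (B.map Prod.snd).sum ∧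
    (A.map Prod.fst).prod = (B.map Prod.fst).prod ∧ (A.map Prod.snd).prod = (B.map Prod.snd).prod ∧
    A.map Prod.fst ≠ B.map Prod.fst ∧ Nat.Coprime (A.map Prod.snd).sum (A.map Prod.fst).sum ∧
    K < (A.map Prod.fst).sum * (A.map Prod.snd).sum

lemma base : D 4 1260 {(18, 70), (28, 45), (28, 45), (45, 28)}
    {(20, 63), (21, 60), (36, 35), (42, 30)} := by
  unfold D
  decide +kernel

def nx (t K : ℕ) (A : Multiset (ℕ × ℕ)) : Multiset (ℕ × ℕ) :=
  (1, t * K) ::ₘ A.map (fun p => (t * p.1, p.2))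

lemma nx1 (t K : ℕ) (A : Multiset (ℕ × ℕ)) :
    (nx t K A).map Prod.fst = 1 ::ₘ (A.map Prod.fst).map (t * ·) := by simp [nx]

lemma nx2 (t K : ℕ) (A : Multiset (ℕ × ℕ)) :
    (nx t K A).map Prod.snd = (t * K) ::ₘ A.map Prod.snd := by simp [nx]

lemma nx3 (t K : ℕ) (A : Multiset (ℕ × ℕ)) (h : ∀ p ∈ A, p.1 * p.2 = K) :
    ∀ p ∈ nx t K A, p.1 * p.2 = t * K := by
  intro p hp
  rcases mem_cons.1 hp with rfl | hp
  · simp
  · obtain ⟨q, hq, rfl⟩ := mem_map.1 hp
    rw [← h q hq, mul_assoc]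

lemma sum_sc (t : ℕ) (s : Multiset ℕ) : (s.map (t * ·)).sum = t * s.sum := by
  induction s using Multiset.induction with
  | empty => simp
  | cons a s ih => rw [map_cons, sum_cons, sum_cons, ih, mul_add]

lemma prod_sc (t : ℕ) (s : Multiset ℕ) : (s.map (t * ·)).prod = t ^ card s * s.prod := by
  induction s using Multiset.induction with
  | empty => simp
  | cons a s ih => rw [map_cons, prod_cons, prod_cons, ih, card_cons]; ring

lemma step (k K : ℕ) (A B : Multiset (ℕ × ℕ)) (h : D k K A B) :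
    ∃ K' A' B', D (k + 1) K' A' B' := by
  obtain ⟨h0, h1, h2, h3, h4, h5, h6, h7, h8, h9, -, h11⟩ := h
  obtain ⟨t, ht⟩ := Nat.exists_eq_add_of_lt h11
  have tp : 0 < t + 1 := Nat.succ_pos t
  refine ⟨(t + 1) * K, nx (t + 1) K A, nx (t + 1) K B, Nat.mul_pos tp h0, nx3 _ _ _ h1,
    nx3 _ _ _ h2, by simp [nx, h3], by simp [nx, h4], ?_, ?_, ?_, ?_, ?_, ?_, ?_⟩
  · rw [nx1, nx1, sum_cons, sum_cons, sum_sc, sum_sc, h5]
  · rw [nx2, nx2, sum_cons, sum_cons, h6]
  · rw [nx1, nx1, prod_cons, prod_cons, prod_sc, prod_sc, h7, card_map, card_map, h3, h4]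
  · rw [nx2, nx2, prod_cons, prod_cons, h8]
  · rw [nx1, nx1]
    intro e
    exact h9 (map_injective (mul_right_injective₀ tp.ne') ((cons_inj_right 1).1 e))
  · rw [nx1, nx2, sum_cons, sum_cons, sum_sc]
    generalize (A.map Prod.fst).sum = a at ht
    generalize (A.map Prod.snd).sum = b at ht
    rw [← Nat.isCoprime_iff_coprime]
    have e : (a : ℤ) * b = K + t + 1 := by exact_mod_cast ht
    refine ⟨-(a : ℤ) ^ 2, 1 + a * K, ?_⟩
    push_cast
    linear_combination (-(a : ℤ)) * e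
  · rw [nx1, nx2, sum_cons, sum_cons, sum_sc]
    generalize (A.map Prod.fst).sum = a at ht h11
    generalize (A.map Prod.snd).sum = b at ht h11
    have hb : 0 < b := Nat.pos_of_ne_zero (by rintro rfl; simp at h11)
    nlinarith [Nat.zero_le ((t + 1) * a * ((t + 1) * K + b))]

lemma allk (k : ℕ) (hk : 4 ≤ k) : ∃ K A B, D k K A B := by
  induction k, hk using Nat.le_induction with
  | base => exact ⟨_, _, _, base⟩
  | succ k _ ih =>
    obtain ⟨K, A, B, h⟩ := ih
    exact step k K A B h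

lemma rep (a b K : ℕ) (h : Nat.Coprime b a) (ha : 0 < a) (n : ℕ)
    (hn : a * (K * (2 * a) + 1) + b * (2 * a) ≤ n) :
    ∃ u v, 0 < v ∧ K * v < u ∧ u * a + v * b = n := by
  obtain ⟨m, hm, e⟩ := Nat.exists_mul_mod_eq_of_coprime n h ha.ne'
  have h1 : b * (m + a) ≤ b * (2 * a) := Nat.mul_le_mul_left _ (by omega)
  have h2 : b * (m + a) ≡ n [MOD a] := by
    unfold Nat.ModEq
    rw [mul_add, Nat.add_mul_mod_self_right, e]
  obtain ⟨u, hu⟩ := (Nat.modEq_iff_dvd' (by omega)).1 h2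
  refine ⟨u, m + a, by omega, ?_, ?_⟩
  · have h3 : a * (K * (2 * a) + 1) ≤ a * u := by omega
    have h4 := Nat.le_of_mul_le_mul_left h3 ha
    have h5 : K * (m + a) ≤ K * (2 * a) := Nat.mul_le_mul_left _ (by omega)
    omega
  · rw [mul_comm u, mul_comm (m + a)]; omega

theorem result (k : ℕ) (hk : 4 ≤ k) : ∃ M : ℕ, ∀ n, M ≤ n →
    ∃ l m : Nat.Partition n, k < card l.parts ∧ k < card m.parts ∧ l ≠ m ∧
      pre k l.parts = pre k m.parts := by
  obtain ⟨K, A, B, h0, h1, h2, h3, h4, h5, h6, h7, h8, h9, h10, h11⟩ := allk k hk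
  have ha : 0 < (A.map Prod.fst).sum := Nat.pos_of_ne_zero (fun e => by simp [e] at h11)
  refine ⟨(A.map Prod.fst).sum * (K * (2 * (A.map Prod.fst).sum) + 1) +
    (A.map Prod.snd).sum * (2 * (A.map Prod.fst).sum), fun n hn => ?_⟩
  obtain ⟨u, v, hv, hu, e⟩ := rep _ _ K h10 ha n hn
  have up : 0 < u := by omega
  let s : Multiset (ℕ × ℕ) :=
    A.map (fun p => (u * p.1, v * p.2)) + B.map (fun p => (v * p.2, u * p.1))
  have s1 : s.map Prod.fst = (A.map Prod.fst).map (u * ·) + (B.map Prod.snd).map (v * ·) := by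
    simp [s]
  have s2 : s.map Prod.snd = (A.map Prod.snd).map (v * ·) + (B.map Prod.fst).map (u * ·) := by
    simp [s]
  have hs : ∀ p ∈ s, p.1 * p.2 = K * (u * v) := by
    intro p hp
    rcases mem_add.1 hp with hp | hp <;> obtain ⟨q, hq, rfl⟩ := mem_map.1 hp
    · rw [← h1 q hq]; ring
    · rw [← h2 q hq]; ring
  have cp : 0 < K * (u * v) := by positivity
  have hc : card s = k + k := by simp [s, h3, h4]
  have big : ∀ C : Multiset (ℕ × ℕ), (∀ p ∈ C, p.1 * p.2 = K) →
      filter (u ≤ ·) ((C.map Prod.fst).map (u * ·)) = (C.map Prod.fst).map (u * ·) ∧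
      filter (u ≤ ·) ((C.map Prod.snd).map (v * ·)) = 0 := by
    intro C hC
    rw [filter_eq_self, filter_eq_nil]
    simp only [mem_map]
    constructor
    · rintro _ ⟨_, ⟨q, hq, rfl⟩, rfl⟩
      have := hC q hq
      exact Nat.le_mul_of_pos_right _ (Nat.pos_of_ne_zero fun z => by rw [z] at this; omega)
    · rintro _ ⟨_, ⟨q, hq, rfl⟩, rfl⟩
      have := Nat.mul_le_mul_left v (Nat.le_of_dvd h0 (Dvd.intro_left _ (hC q hq)))
      rw [mul_comm v K] at this
      omega
  refine ⟨⟨s.map Prod.fst, fun hi => ?_, ?_⟩, ⟨s.map Prod.snd, fun hi => ?_, ?_⟩, ?_, ?_, ?_, ?_⟩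
  · obtain ⟨p, hp, rfl⟩ := mem_map.1 hi
    have := hs p hp
    exact Nat.pos_of_ne_zero fun z => by rw [z] at this; omega
  · rw [s1, sum_add, sum_sc, sum_sc, ← h6, e]
  · obtain ⟨p, hp, rfl⟩ := mem_map.1 hi
    have := hs p hp
    exact Nat.pos_of_ne_zero fun z => by rw [z] at this; omega
  · rw [s2, sum_add, sum_sc, sum_sc, ← h5, add_comm, e]
  · show k < card (s.map Prod.fst)
    rw [card_map, hc]; omega
  · show k < card (s.map Prod.snd)
    rw [card_map, hc]; omega
  · intro z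
    have z2 : s.map Prod.fst = s.map Prod.snd := congrArg Nat.Partition.parts z
    have z3 := congrArg (filter (u ≤ ·)) z2
    rw [s1, s2, filter_add, filter_add, (big A h1).1, (big A h1).2, (big B h2).1, (big B h2).2,
      add_zero, zero_add] at z3
    exact h9 (map_injective (mul_right_injective₀ up.ne') z3)
  · apply key s _ k cp hs hc
    rw [s1, s2, prod_add, prod_add, prod_sc, prod_sc, prod_sc, prod_sc, h7, h8]
    simp only [card_map, h3, h4]
    ring

end Pool.Agent.Results.MP_b67aea_co.Four
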